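import Pool.Agent.H48.ER.Targets

/-!
# Chordless walks and paths (WLK)
-/

set_option autoImplicit false
set_option linter.unusedVariables false

open Pool.Agent.H48.ER

namespace Pool.Agent.H36.ER

section

variable {V : Type} {G : SimpleGraph V}

/-- the walk through the vertices `g 0, ..., g n` -/
theorem exists_walk (n : ℕ) : ∀ (g : ℕ → V), (∀ i, i < n → G.Adj (g i) (g (i + 1))) →
    ∃ p : G.Walk (g 0) (g n), p.length = n ∧ ∀ i, i ≤ n → p.getVert i = g i := by
  induction n with
  | zero =>
    intro g _
    refine ⟨SimpleGraph.Walk.nil, rfl, ?_⟩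
    intro i hi
    have : i = 0 := by omega
    subst this
    exact SimpleGraph.Walk.getVert_zero _
  | succ n ih =>
    intro g hg
    obtain ⟨p, hp, hv⟩ := ih (fun i => g (i + 1)) (fun i hi => hg (i + 1) (by omega))
    refine ⟨SimpleGraph.Walk.cons (hg 0 (by omega)) p, ?_, ?_⟩
    · rw [SimpleGraph.Walk.length_cons, hp]
    · intro i hi
      cases i with
      | zero => exact SimpleGraph.Walk.getVert_zero _
      | succ i =>
        rw [SimpleGraph.Walk.getVert_cons_succ]
        exact hv i (by omega)

end

theorem pf_WLK : T_WLK := by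
  intro V G x y
  constructor
  · intro p hp hc
    refine ⟨p.getVert, p.getVert_zero, p.getVert_length, ?_, ?_, ?_⟩
    · intro i j hi hj h
      exact hp.getVert_injOn hi hj h
    · intro i j hi hj
      constructor
      · intro h
        by_contra hne
        have h1 : i ≠ j := by
          intro e
          subst e
          exact G.loopless.irrefl _ h
        rcases Nat.lt_or_gt_of_ne h1 with h2 | h2
        · exact hc i j (by omega) hj h
        · exact hc j i (by omega) hi h.symm
      · rintro (h | h)
        · subst h
          exact p.adj_getVert_succ (by omega)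
        · subst h
          exact (p.adj_getVert_succ (by omega)).symm
    · ext v
      change v ∈ p.support ↔ _
      rw [SimpleGraph.Walk.mem_support_iff_exists_getVert]
      constructor
      · rintro ⟨i, h1, h2⟩
        exact ⟨i, h2, h1⟩
      · rintro ⟨i, h1, h2⟩
        exact ⟨i, h2, h1⟩
  · rintro n R ⟨g, rfl, rfl, gi, ga, hR⟩
    obtain ⟨p, hl, hv⟩ := exists_walk n g fun i hi =>
      (ga i (i + 1) (by omega) (by omega)).2 (Or.inl rfl)
    have hpath : p.IsPath := by
      rw [← SimpleGraph.Walk.IsPath.getVert_injOn_iff]
      intro i hi j hj h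
      have hi' : i ≤ n := hl ▸ hi
      have hj' : j ≤ n := hl ▸ hj
      rw [hv i hi', hv j hj'] at h
      exact gi i j hi' hj' h
    refine ⟨p, hpath, hl, ?_, ?_, ?_⟩
    · intro v
      rw [SimpleGraph.Walk.mem_support_iff_exists_getVert, hR]
      constructor
      · rintro ⟨i, h1, h2⟩
        rw [hl] at h2
        exact ⟨i, h2, by rw [← hv i h2, h1]⟩
      · rintro ⟨i, h1, h2⟩
        exact ⟨i, by rw [hv i h1, h2], by rw [hl]; exact h1⟩
    · intro i j hij hj h
      rw [hl] at hj
      rw [hv i (by omega), hv j hj, ga i j (by omega) hj] at h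
      omega
    · intro u hu v hv'
      rw [SimpleGraph.Walk.toSubgraph_adj_iff]
      constructor
      · rintro ⟨i, h1, h2⟩
        have h3 := p.adj_getVert_succ h2
        rw [Sym2.eq_iff] at h1
        rcases h1 with ⟨e1, e2⟩ | ⟨e1, e2⟩
        · rw [e1, e2] at h3
          exact h3
        · rw [e1, e2] at h3
          exact h3.symm
      · intro h
        rw [hR] at hu hv'
        obtain ⟨i, hi, rfl⟩ := hu
        obtain ⟨j, hj, rfl⟩ := hv'
        rw [ga i j hi hj] at h
        rcases h with h | h
        · subst h
          exact ⟨i, by rw [hv i hi, hv _ hj], by omega⟩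
        · subst h
          exact ⟨j, by rw [hv j hj, hv _ hi]; exact Sym2.eq_swap, by omega⟩

end Pool.Agent.H36.ER
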