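import Pool.Agent.H48.ER.Targets

/-!
# Contraction if the neighbourhood has exactly one edge (TDN)
-/

set_option autoImplicit false
set_option linter.unusedVariables false

open Pool.Agent.H48.ER

namespace Pool.Agent.H36.ER

theorem pf_TDN (hDEG : T_DEG) (hW1 : T_W1) (hW2 : T_W2) (hW3 : T_W3) : T_TDN := by
  intro V G v x y z hH hP hN hxy hxz hyz hE a b n P hpr hodd
  have hvx : G.Adj v x := (hN x).2 (Or.inl rfl)
  have hvy : G.Adj v y := (hN y).2 (Or.inr (Or.inl rfl))
  have hvz : G.Adj v z := (hN z).2 (Or.inr (Or.inr rfl))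
  obtain ⟨hx, hz, hc⟩ := hW1 V G x z a b n P hH hP hE hpr hodd
  have hv : v ∉ ver P := fun h => hc v h ⟨hvx.symm, hvz.symm⟩
  obtain ⟨g, hg, hgx, hvg⟩ := hW2 V G x z a b n P v hH hP hE hpr hodd hv hvx hvz
  have hy : y ∈ ver P := by
    rcases (hN g).1 hvg with h | h | h
    · exact absurd h hgx
    · exact h ▸ hg
    · exact absurd (h ▸ hg) hz
  refine hW3 V G x z a b n P v y hH hP hE hpr hodd hv hvx hvz hvy ?_ hy hxy
  intro w hw
  rcases (hN w).1 hw with h | h | h
  · exact Or.inl h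
  · exact Or.inr (Or.inr h)
  · exact Or.inr (Or.inl h)

end Pool.Agent.H36.ER
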