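import Pool.Agent.H48.ER.Targets

/-!
# Contraction in a stable neighbourhood (TSN)
-/

set_option autoImplicit false
set_option linter.unusedVariables false

open Pool.Agent.H48.ER

namespace Pool.Agent.H36.ER

theorem pf_TSN (hCNH : T_CNH) (hTSE : T_TSE) (hW1 : T_W1) (hW2 : T_W2) (hSTB : T_STB)
    (hRER : T_RER) : T_TSN := by
  intro V G c p q hH hP hst hcp hcq hpq a b n P hpr hodd
  have hE : EvP G p q := hTSE V G c p q hH hst hcp hcq hpq
  obtain ⟨hp, hq, hcom⟩ := hW1 V G p q a b n P hH hP hE hpr hodd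
  have hc : c ∉ ver P := fun h => hcom c h ⟨hcp.symm, hcq.symm⟩
  obtain ⟨g, hg, hgp, hcg⟩ := hW2 V G p q a b n P c hH hP hE hpr hodd hc hcp hcq
  have hcp' : c ≠ p := hcp.ne
  have hcq' : c ≠ q := hcq.ne
  -- neighbours of `c` after the contraction
  have hnb : ∀ w, (ctr G p q).Adj c w → G.Adj c w := by
    intro w hw
    rw [ctr_adj] at hw
    obtain ⟨_, _, hwq, h | h | h⟩ := hw
    · exact h
    · exact absurd h.1 hcp'
    · rw [h.1]; exact hcp
  have hst' : ∀ u w, (ctr G p q).Adj c u → (ctr G p q).Adj c w → ¬ (ctr G p q).Adj u w := by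
    intro u w hu hw huw
    have hu' := hnb u hu
    have hw' := hnb w hw
    rw [ctr_adj] at huw
    obtain ⟨_, _, _, h | h | h⟩ := huw
    · exact hst u w hu' hw' h
    · exact hst q w hcq hw' h.2
    · exact hst u q hu' hcq h.2
  have hgq : g ≠ q := fun h => hq (h ▸ hg)
  have hcg' : (ctr G p q).Adj c g := (ctr_adj_of_ne hcp' hcq' hgp hgq).2 hcg
  have hcp1 : (ctr G p q).Adj c p := by
    rw [ctr_adj]
    exact ⟨hcp', hcq', hpq, Or.inl hcp⟩
  have hH' := hCNH V G p q hH hE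
  have hstv : ∀ g ∈ ver P, ∀ h ∈ ver P, (ctr G p q).Adj c g → (ctr G p q).Adj c h →
      ¬ (ctr G p q).Adj g h := fun g _ h _ h1 h2 => hst' g h h1 h2
  obtain ⟨i, hi⟩ := hp
  have hS : ∀ (j : Fin 3) (w : V), w ∈ P j → (ctr G p q).Adj c w → j = i := fun j w hw hcw =>
    hSTB V (ctr G p q) a b n P c hH' hpr hc hstv j i w p hw hi hcw hcp1
  obtain ⟨j, hj⟩ := hg
  have hji := hS j g hj hcg'
  rw [hji] at hj
  obtain ⟨n', P', hpr', hcP', hpar⟩ := hRER V (ctr G p q) a b n P c p g i hH' hpr hc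
    (fun w hw hcw => by
      obtain ⟨l, hl⟩ := hw
      rw [← hS l w hl hcw]
      exact hl) hstv hi hj hgp.symm hcp1 hcg'
  have hodd' : ∀ i, Odd (n' i) := by
    intro i
    have h1 := hpar i
    have h2 := hodd i
    rw [Nat.even_add] at h1
    rw [← Nat.not_even_iff_odd] at h2 ⊢
    exact fun h => h2 (h1.1 h)
  exact (hW1 V G p q a b n' P' hH hP hE hpr' hodd').2.2 c hcP' ⟨hcp.symm, hcq.symm⟩

end Pool.Agent.H36.ER
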