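import Pool.Agent.H48.ER.Targets

/-!
# No common neighbour in the odd prism (W1)
-/

set_option autoImplicit false
set_option linter.unusedVariables false

open Pool.Agent.H48.ER

namespace Pool.Agent.H36.ER

section

variable {V : Type} {G : SimpleGraph V}

/-- the vertices of a prism have neighbours -/
theorem prism_nb {a b : Fin 3 → V} {n : Fin 3 → ℕ} {P : Fin 3 → Set V} (h : Prism G a b n P)
    {v : V} (hv : v ∈ ver P) : ∃ w, G.Adj v w := by
  obtain ⟨i, hi⟩ := hv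
  obtain ⟨g, g0, gn, gi, ga, hR⟩ := h.ip i
  have hpos := h.pos i
  rw [hR] at hi
  obtain ⟨t, ht, rfl⟩ := hi
  rcases Nat.lt_or_ge t (n i) with h1 | h1
  · exact ⟨g (t + 1), (ga t (t + 1) ht h1).2 (Or.inl rfl)⟩
  · refine ⟨g (t - 1), (ga t (t - 1) ht (by omega)).2 (Or.inr (by omega))⟩

end

theorem pf_W1 (hSPI : T_SPI) (hSPC : T_SPC) : T_W1 := by
  intro V G p q a b n P hH hP hE hpr hodd
  have hq : q ∉ ver P := by
    intro h
    obtain ⟨w, hw⟩ := prism_nb hpr h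
    exact ctr_not_adj hw
  have hp : p ∈ ver P := by
    by_contra hp
    refine hP a b n P (hpr.congr fun u hu v hv => ?_) hodd
    have h1 : u ≠ p := fun h => hp (h ▸ hu)
    have h2 : u ≠ q := fun h => hq (h ▸ hu)
    have h3 : v ≠ p := fun h => hp (h ▸ hv)
    have h4 : v ≠ q := fun h => hq (h ▸ hv)
    exact (ctr_adj_of_ne h1 h2 h3 h4).symm
  refine ⟨hp, hq, ?_⟩
  rintro c hc ⟨hpc, hqc⟩
  have hcp : c ≠ p := hpc.ne.symm
  obtain ⟨i, hpi⟩ := hp
  have corner : ∀ (a b : Fin 3 → V), Prism (ctr G p q) a b n P → p = a i → False := by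
    intro a b hpr h
    obtain ⟨_, r, m, R, hR, _, hPi, _, hcase⟩ := hSPC V G p q a b n P i hH hP hE hpr hodd h
    have hr : r ∈ P i := by
      rw [hPi]
      exact Set.mem_insert_of_mem _ hR.left_mem
    have hfin : (∃ j, j ≠ i ∧ c = a j) → c = r → False := by
      rintro ⟨j, hj, h1⟩ h2
      exact hj (hpr.rung (hpr.a_mem j) (h1 ▸ h2 ▸ hr))
    rcases hcase with ⟨h1, h2⟩ | ⟨h1, h2⟩
    · exact hfin ((h1 c hc hcp).1 hpc) ((h2 c hc hcp).1 hqc)
    · exact hfin ((h1 c hc hcp).1 hqc) ((h2 c hc hcp).1 hpc)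
  by_cases hpa : p = a i
  · exact corner a b hpr hpa
  by_cases hpb : p = b i
  · exact corner b a hpr.flip hpb
  obtain ⟨_, u, w, k, m, L, R, hL, hR, _, _, _, _, hLR, _, hcase⟩ :=
    hSPI V G p q a b n P i hH hP hE hpr hodd hpi hpa hpb
  have hfin : c = u → c = w → False := by
    intro h1 h2
    exact Set.disjoint_left.1 hLR hL.right_mem (h1 ▸ h2 ▸ hR.left_mem)
  rcases hcase with ⟨h1, h2⟩ | ⟨h1, h2⟩
  · exact hfin ((h1 c hc hcp).1 hpc) ((h2 c hc hcp).1 hqc)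
  · exact hfin ((h1 c hc hcp).1 hqc) ((h2 c hc hcp).1 hpc)

end Pool.Agent.H36.ER
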