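import Pool.Agent.H48.ER.Targets

/-!
# A vertex with the neighbours `p`, `q`, `y` (W3)
-/

set_option autoImplicit false
set_option linter.unusedVariables false

open Pool.Agent.H48.ER

namespace Pool.Agent.H36.ER

section

variable {V : Type} {G : SimpleGraph V}

/-- the hole consisting of two paths and the vertices `q`, `v` -/
theorem core2 (hH : NOH G) {k l : ℕ} {y s s' w v q : V} {A B : Set V} (hA : IP G k y s A)
    (hB : IP G l s' w B) (dAB : Disjoint A B) (xAB : XE G A B s s') (hq : q ∉ A ∪ B)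
    (hqa : ∀ g ∈ A ∪ B, G.Adj q g ↔ g = w) (hv : v ∉ A ∪ B) (hvq : G.Adj v q)
    (hvy : G.Adj v y) (hvn : ∀ g ∈ A ∪ B, G.Adj v g → g = y) : Even (k + l + 2) := by
  have h1 := (hA.append hB dAB xAB).snoc hq hqa
  refine hH (k + l + 1 + 1) y q v _ h1 (by omega) ?_ hvy hvq ?_
  · intro h
    rcases Set.mem_insert_iff.1 h with h | h
    · exact hvq.ne h
    · exact hv h
  · intro g hg hvg
    rcases Set.mem_insert_iff.1 hg with h | h
    · exact Or.inr h
    · exact Or.inl (hvn g h hvg)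

/-- the hole consisting of three paths and the vertices `q`, `v` -/
theorem core3 (hH : NOH G) {k l m : ℕ} {y s s' e' e w v q : V} {A B C : Set V}
    (hA : IP G k y s A) (hB : IP G l s' e' B) (hC : IP G m e w C) (dAB : Disjoint A B)
    (dAC : Disjoint A C) (dBC : Disjoint B C) (xAB : XE G A B s s') (xBC : XE G B C e' e)
    (nAC : NE G A C) (hq : q ∉ A ∪ B ∪ C) (hqa : ∀ g ∈ A ∪ B ∪ C, G.Adj q g ↔ g = w)
    (hv : v ∉ A ∪ B ∪ C) (hvq : G.Adj v q) (hvy : G.Adj v y)
    (hvn : ∀ g ∈ A ∪ B ∪ C, G.Adj v g → g = y) : Even (k + l + m + 3) := by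
  have h1 := hA.append hB dAB xAB
  have d : Disjoint (A ∪ B) C := Disjoint.sup_left dAC dBC
  have x : XE G (A ∪ B) C e' e := by
    intro a ha b hb
    rcases ha with ha | ha
    · constructor
      · intro h
        exact absurd h (nAC a ha b hb)
      · rintro ⟨h, _⟩
        exact absurd hB.right_mem (h ▸ Set.disjoint_left.1 dAB ha)
    · exact xBC a ha b hb
  have h2 := core2 hH h1 hC d x hq hqa hv hvq hvy hvn
  have e : k + l + 1 + m + 2 = k + l + m + 3 := by omega
  rwa [e] at h2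

end

theorem corner (hSPC : T_SPC) (V : Type) (G : SimpleGraph V) (p q : V) (a b : Fin 3 → V)
    (n : Fin 3 → ℕ) (P : Fin 3 → Set V) (v y : V) (hH : NOH G) (hP : NOP G) (hE : EvP G p q)
    (hpr : Prism (ctr G p q) a b n P) (hodd : ∀ i, Odd (n i)) (hv : v ∉ ver P)
    (hvp : G.Adj v p) (hvq : G.Adj v q) (hvy : G.Adj v y)
    (hvn : ∀ w, G.Adj v w → w = p ∨ w = q ∨ w = y) (hy : y ∈ ver P) (hpy : G.Adj p y)
    (i : Fin 3) (hpi : p = a i) : False := by
  obtain ⟨hq, r, m, R, hR, hpR, hPi, hmn, hcase⟩ :=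
    hSPC V G p q a b n P i hH hP hE hpr hodd hpi
  have hRP : R ⊆ P i := by rw [hPi]; exact Set.subset_insert _ _
  have hadj : ∀ u ∈ ver P, ∀ w ∈ ver P, u ≠ p → w ≠ p → (G.Adj u w ↔ (ctr G p q).Adj u w) := by
    intro u hu w hw h1 h2
    have h3 : u ≠ q := fun h => hq (h ▸ hu)
    have h4 : w ≠ q := fun h => hq (h ▸ hw)
    exact (ctr_adj_of_ne h1 h3 h2 h4).symm
  have hpP : p ∈ P i := hpi ▸ hpr.a_mem i
  have hneR : ∀ u ∈ R, u ≠ p := fun u hu h => hpR (h ▸ hu)
  have hneP : ∀ j, j ≠ i → ∀ u ∈ P j, u ≠ p := fun j hj u hu h =>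
    hpr.ne_of_mem hj hu hpP h
  have hRG : IP G m r (b i) R := hR
  have hPG : ∀ j, j ≠ i → IP G (n j) (a j) (b j) (P j) := fun j hj =>
    (hpr.ip j).congr fun u hu w hw =>
      hadj u (mem_ver hu) w (mem_ver hw) (hneP j hj u hu) (hneP j hj w hw)
  have hyp : y ≠ p := hpy.ne.symm
  have hX : ∀ j, j ≠ i → XE G (P j) R (b j) (b i) := by
    intro j hj u hu w hw
    rw [hadj u (mem_ver hu) w (mem_ver (hRP hw)) (hneP j hj u hu) (hneR w hw),
      hpr.adj j i hj u hu w (hRP hw)]
    constructor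
    · rintro (⟨_, h⟩ | h)
      · exact absurd (h.trans hpi.symm) (hneR w hw)
      · exact h
    · exact Or.inr
  have hD : ∀ j, j ≠ i → Disjoint (P j) R := fun j hj => (hpr.dis j i hj).mono_right hRP
  have hsub : ∀ j, ∀ g ∈ P j ∪ R, g ∈ ver P := by
    rintro j g (hg | hg)
    · exact mem_ver hg
    · exact mem_ver (hRP hg)
  have hnp : ∀ j, j ≠ i → ∀ g ∈ P j ∪ R, g ≠ p := by
    rintro j hj g (hg | hg)
    · exact hneP j hj g hg
    · exact hneR g hg
  have hvn' : ∀ j, j ≠ i → ∀ g ∈ P j ∪ R, G.Adj v g → g = y := by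
    intro j hj g hg h
    rcases hvn g h with h | h | h
    · exact absurd h (hnp j hj g hg)
    · exact absurd (hsub j g hg) (h ▸ hq)
    · exact h
  have hpar : ∀ j, ¬ Even (n i + n j + 1) := by
    intro j
    have h1 := hodd i
    have h2 := hodd j
    rw [Nat.not_even_iff_odd]
    exact (h1.add_odd h2).add_one
  rcases hcase with ⟨h1, h2⟩ | ⟨h1, h2⟩
  · -- `p` is adjacent to the other corners
    obtain ⟨j, hj, hyj⟩ := (h1 y hy hyp).1 hpy
    subst hyj
    have h3 := core2 hH (hPG j hj) hRG.rev (hD j hj) (hX j hj)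
      (fun h => hq (hsub j q h)) (fun g hg => h2 g (hsub j g hg) (hnp j hj g hg))
      (fun h => hv (hsub j v h)) hvq hvy (hvn' j hj)
    apply hpar j
    have e : n i + n j + 1 = n j + m + 2 := by omega
    rw [e]
    exact h3
  · -- `q` is adjacent to the other corners
    have hyr : y = r := (h2 y hy hyp).1 hpy
    subst hyr
    obtain ⟨j, hj⟩ : ∃ j : Fin 3, j ≠ i := ⟨i + 1, by fin_cases i <;> decide⟩
    have hcom : R ∪ P j = P j ∪ R := Set.union_comm _ _
    have hX' : XE G R (P j) (b i) (b j) := by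
      intro u hu w hw
      rw [SimpleGraph.adj_comm, hX j hj w hw u hu]
      exact and_comm
    have h3 := core2 (q := q) (v := v) hH hRG (hPG j hj).rev (hD j hj).symm hX'
      (by rw [hcom]; exact fun h => hq (hsub j q h))
      (by
        rw [hcom]
        intro g hg
        rw [h1 g (hsub j g hg) (hnp j hj g hg)]
        constructor
        · rintro ⟨l, hl, rfl⟩
          rcases hg with hg | hg
          · rw [hpr.rung (hpr.a_mem l) hg]
          · exact absurd (hpr.rung (hpr.a_mem l) (hRP hg)) hl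
        · intro h
          exact ⟨j, hj, h⟩)
      (by rw [hcom]; exact fun h => hv (hsub j v h)) hvq hvy
      (by rw [hcom]; exact hvn' j hj)
    apply hpar j
    have e : n i + n j + 1 = m + n j + 2 := by omega
    rw [e]
    exact h3

theorem pf_W3 (hSPI : T_SPI) (hSPC : T_SPC) (hW1 : T_W1) : T_W3 := by
  intro V G p q a b n P v y hH hP hE hpr hodd hv hvp hvq hvy hvn hy hpy
  obtain ⟨hp, hq, hcom⟩ := hW1 V G p q a b n P hH hP hE hpr hodd
  obtain ⟨i, hpi⟩ := hp
  by_cases hpa : p = a i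
  · exact corner hSPC V G p q a b n P v y hH hP hE hpr hodd hv hvp hvq hvy hvn hy hpy i hpa
  by_cases hpb : p = b i
  · exact corner hSPC V G p q b a n P v y hH hP hE hpr.flip hodd hv hvp hvq hvy hvn hy hpy i hpb
  obtain ⟨_, u, w, k, m, L, R, hL, hR, hpL, hpR, hPi, hkm, hLR, hNE, hcase⟩ :=
    hSPI V G p q a b n P i hH hP hE hpr hodd hpi hpa hpb
  have hLP : L ⊆ P i := by rw [hPi]; exact fun x hx => Or.inl (Or.inl hx)
  have hRP : R ⊆ P i := by rw [hPi]; exact fun x hx => Or.inr hx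
  have hadj : ∀ u ∈ ver P, ∀ w ∈ ver P, u ≠ p → w ≠ p → (G.Adj u w ↔ (ctr G p q).Adj u w) := by
    intro u hu w hw h1 h2
    have h3 : u ≠ q := fun h => hq (h ▸ hu)
    have h4 : w ≠ q := fun h => hq (h ▸ hw)
    exact (ctr_adj_of_ne h1 h3 h2 h4).symm
  have hneL : ∀ u ∈ L, u ≠ p := fun u hu h => hpL (h ▸ hu)
  have hneR : ∀ u ∈ R, u ≠ p := fun u hu h => hpR (h ▸ hu)
  have hneP : ∀ j, j ≠ i → ∀ u ∈ P j, u ≠ p := fun j hj u hu h =>
    hpr.ne_of_mem hj hu hpi h
  have hLG : IP G k (a i) u L := hL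
  have hRG : IP G m w (b i) R := hR
  obtain ⟨j, hj⟩ : ∃ j : Fin 3, j ≠ i := ⟨i + 1, by fin_cases i <;> decide⟩
  have hPG : IP G (n j) (a j) (b j) (P j) :=
    (hpr.ip j).congr fun u hu w hw =>
      hadj u (mem_ver hu) w (mem_ver hw) (hneP j hj u hu) (hneP j hj w hw)
  have hyp : y ≠ p := hpy.ne.symm
  have hxL : XE G L (P j) (a i) (a j) := by
    intro x hx z hz
    rw [hadj x (mem_ver (hLP hx)) z (mem_ver hz) (hneL x hx) (hneP j hj z hz),
      hpr.adj i j hj.symm x (hLP hx) z hz]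
    constructor
    · rintro (h | ⟨h, _⟩)
      · exact h
      · exact absurd hR.right_mem (h ▸ Set.disjoint_left.1 hLR hx)
    · exact Or.inl
  have hxR : XE G (P j) R (b j) (b i) := by
    intro z hz x hx
    rw [hadj z (mem_ver hz) x (mem_ver (hRP hx)) (hneP j hj z hz) (hneR x hx),
      hpr.adj j i hj z hz x (hRP hx)]
    constructor
    · rintro (⟨_, h⟩ | h)
      · exact absurd hL.left_mem (h ▸ Set.disjoint_right.1 hLR hx)
      · exact h
    · exact Or.inr
  have hNE' : NE G L R := hNE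
  have hsub : ∀ g ∈ L ∪ P j ∪ R, g ∈ ver P := by
    rintro g ((hg | hg) | hg)
    · exact mem_ver (hLP hg)
    · exact mem_ver hg
    · exact mem_ver (hRP hg)
  have hnp : ∀ g ∈ L ∪ P j ∪ R, g ≠ p := by
    rintro g ((hg | hg) | hg)
    · exact hneL g hg
    · exact hneP j hj g hg
    · exact hneR g hg
  have hvn' : ∀ g ∈ L ∪ P j ∪ R, G.Adj v g → g = y := by
    intro g hg h
    rcases hvn g h with h | h | h
    · exact absurd h (hnp g hg)
    · exact absurd (hsub g hg) (h ▸ hq)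
    · exact h
  have hpar : ¬ Even (n i + n j + 1) := by
    rw [Nat.not_even_iff_odd]
    exact ((hodd i).add_odd (hodd j)).add_one
  have dL : Disjoint L (P j) := (hpr.dis i j hj.symm).mono_left hLP
  have dR : Disjoint (P j) R := (hpr.dis j i hj).mono_right hRP
  rcases hcase with ⟨h1, h2⟩ | ⟨h1, h2⟩
  · have hyu : y = u := (h1 y hy hyp).1 hpy
    subst hyu
    have h3 := core3 hH hLG.rev hPG hRG.rev dL hLR dR hxL hxR hNE'
      (fun h => hq (hsub q h)) (fun g hg => h2 g (hsub g hg) (hnp g hg))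
      (fun h => hv (hsub v h)) hvq hvy hvn'
    apply hpar
    have e : n i + n j + 1 = k + n j + m + 3 := by omega
    rw [e]
    exact h3
  · have hyw : y = w := (h2 y hy hyp).1 hpy
    subst hyw
    have hcm : R ∪ P j ∪ L = L ∪ P j ∪ R := by
      rw [Set.union_comm R, Set.union_comm, Set.union_assoc]
    have h3 := core3 (q := q) (v := v) hH hRG hPG.rev hLG dR.symm hLR.symm dL.symm
      (fun x hx z hz => by rw [SimpleGraph.adj_comm, hxR z hz x hx]; exact and_comm)
      (fun x hx z hz => by rw [SimpleGraph.adj_comm, hxL z hz x hx]; exact and_comm)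
      (fun x hx z hz h => hNE' z hz x hx h.symm)
      (by rw [hcm]; exact fun h => hq (hsub q h))
      (by rw [hcm]; exact fun g hg => h1 g (hsub g hg) (hnp g hg))
      (by rw [hcm]; exact fun h => hv (hsub v h)) hvq hvy (by rw [hcm]; exact hvn')
    apply hpar
    have e : n i + n j + 1 = m + n j + k + 3 := by omega
    rw [e]
    exact h3

end Pool.Agent.H36.ER
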